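import Mathlib

/-!
# Strong shift equivalence over the nonnegative rationals: basic moves
-/

set_option autoImplicit false

namespace Pool.Agent.Run7.h686.QP

open Matrix

/-- Entrywise nonnegative. -/
def NN {m n : ℕ} (A : Matrix (Fin m) (Fin n) ℚ) : Prop := ∀ i j, 0 ≤ A i j

abbrev SqQ := Σ n : ℕ, Matrix (Fin n) (Fin n) ℚ

/-- Elementary equivalence through entrywise nonnegative rational matrices. -/
def EQ (X Y : SqQ) : Prop :=
  ∃ (R : Matrix (Fin X.1) (Fin Y.1) ℚ) (S : Matrix (Fin Y.1) (Fin X.1) ℚ),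
    NN R ∧ NN S ∧ X.2 = R * S ∧ Y.2 = S * R

/-- A chain of elementary equivalences (possibly empty). -/
def Q {n m : ℕ} (A : Matrix (Fin n) (Fin n) ℚ) (B : Matrix (Fin m) (Fin m) ℚ) : Prop :=
  Relation.ReflTransGen EQ ⟨n, A⟩ ⟨m, B⟩

lemma EQ.symm {X Y : SqQ} (h : EQ X Y) : EQ Y X := by
  obtain ⟨R, S, hR, hS, h1, h2⟩ := h
  exact ⟨S, R, hS, hR, h2, h1⟩

lemma Q.refl {n : ℕ} (A : Matrix (Fin n) (Fin n) ℚ) : Q A A := Relation.ReflTransGen.refl

lemma Q.symm {n m : ℕ} {A : Matrix (Fin n) (Fin n) ℚ} {B : Matrix (Fin m) (Fin m) ℚ}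
    (h : Q A B) : Q B A := by
  have key : ∀ {X Y : SqQ}, Relation.ReflTransGen EQ X Y → Relation.ReflTransGen EQ Y X := by
    intro X Y h
    induction h with
    | refl => exact Relation.ReflTransGen.refl
    | tail _ h2 ih => exact Relation.ReflTransGen.head h2.symm ih
  exact key h

lemma Q.trans {n m k : ℕ} {A : Matrix (Fin n) (Fin n) ℚ} {B : Matrix (Fin m) (Fin m) ℚ}
    {C : Matrix (Fin k) (Fin k) ℚ} (h : Q A B) (h' : Q B C) : Q A C :=
  Relation.ReflTransGen.trans h h'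

lemma Q.of_elem {n m : ℕ} {A : Matrix (Fin n) (Fin n) ℚ} {B : Matrix (Fin m) (Fin m) ℚ}
    (R : Matrix (Fin n) (Fin m) ℚ) (S : Matrix (Fin m) (Fin n) ℚ) (hR : NN R) (hS : NN S)
    (h1 : A = R * S) (h2 : B = S * R) : Q A B :=
  Relation.ReflTransGen.single ⟨R, S, hR, hS, h1, h2⟩

lemma NN_mul {n m k : ℕ} {U : Matrix (Fin n) (Fin k) ℚ} {R : Matrix (Fin k) (Fin m) ℚ}
    (hU : NN U) (hR : NN R) : NN (U * R) := by
  intro i j
  rw [Matrix.mul_apply]
  exact Finset.sum_nonneg fun l _ => mul_nonneg (hU i l) (hR l j)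

lemma NN_add {n m : ℕ} {U R : Matrix (Fin n) (Fin m) ℚ}
    (hU : NN U) (hR : NN R) : NN (U + R) := fun i j => add_nonneg (hU i j) (hR i j)

lemma NN_one {n : ℕ} : NN (1 : Matrix (Fin n) (Fin n) ℚ) := by
  intro i j
  by_cases h : i = j
  · rw [h, Matrix.one_apply_eq]; norm_num
  · rw [Matrix.one_apply_ne h]

lemma NN_pow {n : ℕ} {A : Matrix (Fin n) (Fin n) ℚ} (hA : NN A) (l : ℕ) : NN (A ^ l) := by
  induction l with
  | zero => rw [pow_zero]; exact NN_one
  | succ l ih => rw [pow_succ]; exact NN_mul ih hA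

/-- Shift equivalence over the nonnegative rationals. -/
def SE {n m : ℕ} (A : Matrix (Fin n) (Fin n) ℚ) (B : Matrix (Fin m) (Fin m) ℚ) : Prop :=
  ∃ l, 1 ≤ l ∧ ∃ (R : Matrix (Fin n) (Fin m) ℚ) (S : Matrix (Fin m) (Fin n) ℚ), NN R ∧ NN S ∧
    A ^ l = R * S ∧ B ^ l = S * R ∧ A * R = R * B ∧ S * A = B * S

lemma pow_comm_rect {n m : ℕ} {A : Matrix (Fin n) (Fin n) ℚ} {B : Matrix (Fin m) (Fin m) ℚ}
    {R : Matrix (Fin n) (Fin m) ℚ} (h : A * R = R * B) (l : ℕ) : A ^ l * R = R * B ^ l := by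
  induction l with
  | zero => rw [pow_zero, pow_zero, Matrix.one_mul, Matrix.mul_one]
  | succ l ih =>
    rw [pow_succ, Matrix.mul_assoc, h, ← Matrix.mul_assoc, ih, Matrix.mul_assoc, ← pow_succ]

lemma SE.symm {n m : ℕ} {A : Matrix (Fin n) (Fin n) ℚ} {B : Matrix (Fin m) (Fin m) ℚ}
    (h : SE A B) : SE B A := by
  obtain ⟨l, hl, R, S, h1, h2, h3, h4, h5, h6⟩ := h
  exact ⟨l, hl, S, R, h2, h1, h4, h3, h6.symm, h5.symm⟩

lemma SE.trans {n m p : ℕ} {A : Matrix (Fin n) (Fin n) ℚ} {B : Matrix (Fin m) (Fin m) ℚ}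
    {C : Matrix (Fin p) (Fin p) ℚ} (h1 : SE A B) (h2 : SE B C) : SE A C := by
  obtain ⟨l1, hl1, R1, S1, n1, n2, a1, a2, a3, a4⟩ := h1
  obtain ⟨l2, hl2, R2, S2, n3, n4, b1, b2, b3, b4⟩ := h2
  refine ⟨l1 + l2, by omega, R1 * R2, S2 * S1, NN_mul n1 n3, NN_mul n4 n2, ?_, ?_, ?_, ?_⟩
  · calc A ^ (l1 + l2) = A ^ l2 * A ^ l1 := by rw [add_comm, pow_add]
      _ = (A ^ l2 * R1) * S1 := by rw [a1, Matrix.mul_assoc]
      _ = R1 * B ^ l2 * S1 := by rw [pow_comm_rect a3]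
      _ = R1 * R2 * (S2 * S1) := by rw [b1]; simp only [Matrix.mul_assoc]
  · calc C ^ (l1 + l2) = C ^ l1 * C ^ l2 := by rw [pow_add]
      _ = (C ^ l1 * S2) * R2 := by rw [b2, Matrix.mul_assoc]
      _ = S2 * B ^ l1 * R2 := by rw [pow_comm_rect b4.symm]
      _ = S2 * S1 * (R1 * R2) := by rw [a2]; simp only [Matrix.mul_assoc]
  · rw [← Matrix.mul_assoc, a3, Matrix.mul_assoc, b3, ← Matrix.mul_assoc]
  · rw [Matrix.mul_assoc, a4, ← Matrix.mul_assoc, b4, Matrix.mul_assoc]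

lemma SE.of_elem {n m : ℕ} {A : Matrix (Fin n) (Fin n) ℚ} {B : Matrix (Fin m) (Fin m) ℚ}
    (R : Matrix (Fin n) (Fin m) ℚ) (S : Matrix (Fin m) (Fin n) ℚ) (hR : NN R) (hS : NN S)
    (h1 : A = R * S) (h2 : B = S * R) : SE A B := by
  refine ⟨1, le_rfl, R, S, hR, hS, by rw [pow_one, h1], by rw [pow_one, h2], ?_, ?_⟩
  · rw [h1, h2, Matrix.mul_assoc]
  · rw [h1, h2, Matrix.mul_assoc]

/-- Two extreme rows generate the cone of all rows. -/
lemma extreme {n m : ℕ} (P : Matrix (Fin (n + 1)) (Fin m) ℚ) (f g : Fin (n + 1) → ℚ)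
    (a b : Fin m → ℚ) (h : ∀ i j, P i j = f i * a j + g i * b j) (hf : ∀ i, 0 ≤ f i)
    (h0 : ∀ i, f i = 0 → g i = 0) :
    ∃ (i0 i1 : Fin (n + 1)) (α β : Fin (n + 1) → ℚ), (∀ i, 0 ≤ α i) ∧ (∀ i, 0 ≤ β i) ∧
      ∀ i j, P i j = α i * P i0 j + β i * P i1 j := by
  classical
  by_cases hex : ∃ i, 0 < f i
  · obtain ⟨i, hi⟩ := hex
    have hne : (Finset.univ.filter fun i : Fin (n + 1) => 0 < f i).Nonempty :=
      ⟨i, by simp [hi]⟩
    obtain ⟨i0, hi0, hmin⟩ := Finset.exists_min_image _ (fun i => g i / f i) hne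
    obtain ⟨i1, hi1, hmax⟩ := Finset.exists_max_image _ (fun i => g i / f i) hne
    simp only [Finset.mem_filter, Finset.mem_univ, true_and] at hi0 hi1 hmin hmax
    obtain ⟨s, hs⟩ : ∃ s : Fin (n + 1) → ℚ, ∀ i, s i = g i / f i := ⟨fun i => g i / f i, fun _ => rfl⟩
    simp only [← hs] at hmin hmax
    have hg : ∀ i, g i = f i * s i := by
      intro i
      by_cases hfi : f i = 0
      · rw [h0 i hfi, hfi, zero_mul]
      · rw [hs]; field_simp
    by_cases heq : s i0 = s i1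
    · refine ⟨i0, i1, fun i => f i / f i0, fun _ => 0, fun i => div_nonneg (hf i) hi0.le,
        fun _ => le_rfl, ?_⟩
      intro k j
      have hk : g k = f k * s i0 := by
        rcases (hf k).lt_or_eq with hk | hk
        · have h1 := hmin k hk
          have h2 := hmax k hk
          have : s k = s i0 := le_antisymm (by rw [heq]; exact h2) h1
          rw [hg k, this]
        · rw [← hk, zero_mul]; exact h0 k hk.symm
      rw [h k j, h i0 j, hk, hg i0]
      field_simp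
      ring
    · have hlt : 0 < s i1 - s i0 := by
        have h1 := hmin i1 hi1
        rcases h1.lt_or_eq with h2 | h2
        · linarith
        · exact absurd h2 heq
      refine ⟨i0, i1, fun i => f i * (s i1 - s i) / (s i1 - s i0) / f i0,
        fun i => f i * (s i - s i0) / (s i1 - s i0) / f i1, ?_, ?_, ?_⟩
      · intro k
        rcases (hf k).lt_or_eq with hk | hk
        · have := hmax k hk
          exact div_nonneg (div_nonneg (mul_nonneg hk.le (by linarith)) hlt.le) hi0.le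
        · simp only [← hk, zero_mul, zero_div, le_refl]
      · intro k
        rcases (hf k).lt_or_eq with hk | hk
        · have := hmin k hk
          exact div_nonneg (div_nonneg (mul_nonneg hk.le (by linarith)) hlt.le) hi1.le
        · simp only [← hk, zero_mul, zero_div, le_refl]
      · intro k j
        rw [h k j, h i0 j, h i1 j, hg k, hg i0, hg i1]
        have e1 : s i1 - s i0 ≠ 0 := hlt.ne'
        have e2 : f i0 ≠ 0 := hi0.ne'
        have e3 : f i1 ≠ 0 := hi1.ne'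
        field_simp
        ring
  · push Not at hex
    refine ⟨0, 0, fun _ => 0, fun _ => 0, fun _ => le_rfl, fun _ => le_rfl, ?_⟩
    intro i j
    have hfi : f i = 0 := le_antisymm (hex i) (hf i)
    rw [h i j, hfi, h0 i hfi]; ring

end Pool.Agent.Run7.h686.QP
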