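import Pool.Agent.Run7.h686.QP.Two

/-!
# Matrices of rank at most two, and transfer to `ℚ≥0`
-/

set_option autoImplicit false

namespace Pool.Agent.Run7.h686.QP

open Matrix

lemma rank_two_succ {n : ℕ} (P : Matrix (Fin (n + 1)) (Fin (n + 1)) ℚ) (hP : NN P)
    (hr : P.rank ≤ 2) : ∃ (U : Matrix (Fin (n + 1)) (Fin 2) ℚ) (V : Matrix (Fin 2) (Fin (n + 1)) ℚ),
      NN U ∧ NN V ∧ P = U * V := by
  obtain ⟨f, hf⟩ : ∃ f : Fin (n + 1) → ℚ, f = P *ᵥ (fun _ => 1) := ⟨_, rfl⟩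
  have hfs : ∀ i, f i = ∑ j, P i j := by
    intro i; rw [hf]; simp [Matrix.mulVec, dotProduct]
  have hf0 : ∀ i, 0 ≤ f i := fun i => by
    rw [hfs]; exact Finset.sum_nonneg fun j _ => hP i j
  have hrow : ∀ i, f i = 0 → ∀ j, P i j = 0 := by
    intro i hi j
    rw [hfs] at hi
    exact (Finset.sum_eq_zero_iff_of_nonneg (fun j _ => hP i j)).mp hi j (Finset.mem_univ j)
  have hfW : f ∈ LinearMap.range P.mulVecLin := ⟨fun _ => 1, by rw [hf]; rfl⟩
  have hg : ∃ g ∈ LinearMap.range P.mulVecLin,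
      LinearMap.range P.mulVecLin ≤ Submodule.span ℚ {f, g} := by
    by_cases hW : LinearMap.range P.mulVecLin ≤ Submodule.span ℚ {f}
    · exact ⟨f, hfW, hW.trans (Submodule.span_mono (by simp))⟩
    · obtain ⟨g, hgW, hgf⟩ := SetLike.not_le_iff_exists.mp hW
      refine ⟨g, hgW, ?_⟩
      have hfne : f ≠ 0 := by
        intro h0
        have hP0 : P = 0 := by
          ext i j
          exact hrow i (by rw [h0]; rfl) j
        apply hgf
        obtain ⟨v, hv⟩ := hgW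
        rw [← hv, hP0]
        simp
      have hli : LinearIndependent ℚ ![f, g] := by
        rw [LinearIndependent.pair_iff' hfne]
        intro c hc
        exact hgf (Submodule.mem_span_singleton.mpr ⟨c, hc⟩)
      have hfin := finrank_span_eq_card hli
      have hrange : Set.range ![f, g] = {f, g} := by
        simp
        exact Set.pair_comm g f
      rw [hrange, Fintype.card_fin] at hfin
      have hle : Submodule.span ℚ {f, g} ≤ LinearMap.range P.mulVecLin := by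
        rw [Submodule.span_le]
        intro x hx
        rcases hx with hx | hx
        · rw [hx]; exact hfW
        · rw [hx]; exact hgW
      have heq := Submodule.eq_of_le_of_finrank_le hle (by rw [hfin]; exact hr)
      rw [heq]
  obtain ⟨g, hgW, hspan⟩ := hg
  have hcol : ∀ j, ∃ a b : ℚ, ∀ i, P i j = f i * a + g i * b := by
    intro j
    have h1 : P.col j ∈ LinearMap.range P.mulVecLin := by
      refine ⟨Pi.single j 1, ?_⟩
      rw [Matrix.mulVecLin_apply, Matrix.mulVec_single_one]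
    obtain ⟨a, b, hab⟩ := Submodule.mem_span_pair.mp (hspan h1)
    refine ⟨a, b, fun i => ?_⟩
    have h2 := congrFun hab i
    simp only [Pi.add_apply, Pi.smul_apply, smul_eq_mul] at h2
    have h3 : P.col j i = P i j := rfl
    rw [h3] at h2
    rw [← h2]; ring
  choose a b hab using hcol
  have hg0 : ∀ i, f i = 0 → g i = 0 := by
    intro i hi
    obtain ⟨v, hv⟩ := hgW
    rw [← hv, Matrix.mulVecLin_apply]
    simp only [Matrix.mulVec, dotProduct]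
    exact Finset.sum_eq_zero fun j _ => by rw [hrow i hi j, zero_mul]
  obtain ⟨i0, i1, α, β, hα, hβ, hrows⟩ := extreme P f g a b (fun i j => hab j i) hf0 hg0
  refine ⟨Matrix.of fun i => ![α i, β i], Matrix.of ![P i0, P i1], ?_, ?_, ?_⟩
  · intro i j; fin_cases j <;> simp [hα, hβ]
  · intro i j; fin_cases i <;> simp [hP _ _]
  · ext i j
    rw [Matrix.mul_apply, Fin.sum_univ_two, hrows i j]
    simp

lemma rank_two {n : ℕ} (P : Matrix (Fin n) (Fin n) ℚ) (hP : NN P)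
    (hr : P.rank ≤ 2) : ∃ (U : Matrix (Fin n) (Fin 2) ℚ) (V : Matrix (Fin 2) (Fin n) ℚ),
      NN U ∧ NN V ∧ P = U * V := by
  cases n with
  | zero => exact ⟨0, 0, NN_zero, NN_zero, by ext i; exact i.elim0⟩
  | succ n => exact rank_two_succ P hP hr

/-- Shift equivalence implies strong shift equivalence for rank at most two. -/
theorem main {m n : ℕ} {A : Matrix (Fin m) (Fin m) ℚ} {B : Matrix (Fin n) (Fin n) ℚ}
    (hA : NN A) (hB : NN B) (hrA : A.rank ≤ 2) (hrB : B.rank ≤ 2) (h : SE A B) : Q A B := by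
  obtain ⟨U, V, hU, hV, e⟩ := rank_two A hA hrA
  obtain ⟨U', V', hU', hV', e'⟩ := rank_two B hB hrB
  have s1 := SE.of_elem U V hU hV e rfl
  have s2 := SE.of_elem U' V' hU' hV' e' rfl
  have q1 := Q.of_elem U V hU hV e rfl
  have q2 := Q.of_elem U' V' hU' hV' e' rfl
  have hs := (s1.symm.trans h).trans s2
  exact (q1.trans (two_all (NN_mul hV hU) (NN_mul hV' hU') hs)).trans q2.symm

/-! ## Transfer -/

/-- The matrix over `ℚ`. -/
def toQ {m n : ℕ} (A : Matrix (Fin m) (Fin n) ℚ≥0) : Matrix (Fin m) (Fin n) ℚ :=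
  A.map (NNRat.cast : ℚ≥0 → ℚ)

lemma toQ_nn {m n : ℕ} (A : Matrix (Fin m) (Fin n) ℚ≥0) : NN (toQ A) := fun i j => (A i j).2

lemma toQ_mul {m n k : ℕ} (A : Matrix (Fin m) (Fin n) ℚ≥0) (B : Matrix (Fin n) (Fin k) ℚ≥0) :
    toQ (A * B) = toQ A * toQ B := Matrix.map_mul (f := NNRat.coeHom)

lemma toQ_pow {m : ℕ} (A : Matrix (Fin m) (Fin m) ℚ≥0) (l : ℕ) :
    toQ (A ^ l) = toQ A ^ l := Matrix.map_pow (f := NNRat.coeHom) A l

/-- Back to `ℚ≥0`. -/
def back {m n : ℕ} (A : Matrix (Fin m) (Fin n) ℚ) : Matrix (Fin m) (Fin n) ℚ≥0 :=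
  A.map Rat.toNNRat

lemma toQ_inj {m n : ℕ} {A B : Matrix (Fin m) (Fin n) ℚ≥0} (h : toQ A = toQ B) : A = B := by
  ext i j
  have := congrFun (congrFun h i) j
  simpa [toQ] using this

lemma toQ_back {m n : ℕ} {A : Matrix (Fin m) (Fin n) ℚ} (hA : NN A) : toQ (back A) = A := by
  ext i j
  simp [toQ, back, Rat.coe_toNNRat _ (hA i j)]

lemma back_mul {m n k : ℕ} {A : Matrix (Fin m) (Fin n) ℚ} {B : Matrix (Fin n) (Fin k) ℚ}
    (hA : NN A) (hB : NN B) : back (A * B) = back A * back B := by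
  apply toQ_inj
  rw [toQ_mul, toQ_back hA, toQ_back hB, toQ_back (NN_mul hA hB)]

lemma back_toQ {m n : ℕ} (A : Matrix (Fin m) (Fin n) ℚ≥0) : back (toQ A) = A :=
  toQ_inj (toQ_back (toQ_nn A))

/-- The corresponding matrix over `ℚ≥0`. -/
def toN (X : SqQ) : Σ n : ℕ, Matrix (Fin n) (Fin n) ℚ≥0 := ⟨X.1, back X.2⟩

lemma chain_toN {r : (Σ n : ℕ, Matrix (Fin n) (Fin n) ℚ≥0) →
    (Σ n : ℕ, Matrix (Fin n) (Fin n) ℚ≥0) → Prop}
    (hr : ∀ (n m : ℕ) (R : Matrix (Fin n) (Fin m) ℚ≥0) (S : Matrix (Fin m) (Fin n) ℚ≥0),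
      r ⟨n, R * S⟩ ⟨m, S * R⟩) {X Y : SqQ} (h : Relation.ReflTransGen EQ X Y) :
    Relation.ReflTransGen r (toN X) (toN Y) := by
  induction h with
  | refl => exact Relation.ReflTransGen.refl
  | @tail Y Z _ h2 ih =>
    refine ih.tail ?_
    obtain ⟨R, S, hR, hS, h3, h4⟩ := h2
    have e1 : toN Y = ⟨Y.1, back R * back S⟩ := by
      unfold toN
      rw [h3, back_mul hR hS]
    have e2 : toN Z = ⟨Z.1, back S * back R⟩ := by
      unfold toN
      rw [h4, back_mul hS hR]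
    rw [e1, e2]
    exact hr _ _ _ _

/-- Shift equivalence over `ℚ≥0` implies a chain, for rank at most two. -/
theorem chain_of_SE {r : (Σ n : ℕ, Matrix (Fin n) (Fin n) ℚ≥0) →
    (Σ n : ℕ, Matrix (Fin n) (Fin n) ℚ≥0) → Prop}
    (hr : ∀ (n m : ℕ) (R : Matrix (Fin n) (Fin m) ℚ≥0) (S : Matrix (Fin m) (Fin n) ℚ≥0),
      r ⟨n, R * S⟩ ⟨m, S * R⟩) {m n : ℕ} (A : Matrix (Fin m) (Fin m) ℚ≥0)
    (B : Matrix (Fin n) (Fin n) ℚ≥0) (hA : (A.map (NNRat.cast : ℚ≥0 → ℚ)).rank ≤ 2)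
    (hB : (B.map (NNRat.cast : ℚ≥0 → ℚ)).rank ≤ 2)
    (h : ∃ l : ℕ, 1 ≤ l ∧ ∃ (R : Matrix (Fin m) (Fin n) ℚ≥0) (S : Matrix (Fin n) (Fin m) ℚ≥0),
      A ^ l = R * S ∧ B ^ l = S * R ∧ A * R = R * B ∧ S * A = B * S) :
    Relation.ReflTransGen r ⟨m, A⟩ ⟨n, B⟩ := by
  obtain ⟨l, hl, R, S, h1, h2, h3, h4⟩ := h
  have hs : SE (toQ A) (toQ B) := by
    refine ⟨l, hl, toQ R, toQ S, toQ_nn R, toQ_nn S, ?_, ?_, ?_, ?_⟩
    · rw [← toQ_pow, h1, toQ_mul]
    · rw [← toQ_pow, h2, toQ_mul]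
    · rw [← toQ_mul, h3, toQ_mul]
    · rw [← toQ_mul, h4, toQ_mul]
  have hq := main (toQ_nn A) (toQ_nn B) hA hB hs
  have hc := chain_toN hr hq
  have e1 : toN ⟨m, toQ A⟩ = ⟨m, A⟩ := by unfold toN; simp only [back_toQ]
  have e2 : toN ⟨n, toQ B⟩ = ⟨n, B⟩ := by unfold toN; simp only [back_toQ]
  rwa [e1, e2] at hc

section

variable {k : Type} [Semiring k]

/-- A chain of elementary equivalences gives a shift equivalence, over any semiring. -/
theorem se_of_chain {r : (Σ n : ℕ, Matrix (Fin n) (Fin n) k) →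
      (Σ n : ℕ, Matrix (Fin n) (Fin n) k) → Prop}
    (hr : ∀ X Y, r X Y → ∃ (R : Matrix (Fin X.1) (Fin Y.1) k) (S : Matrix (Fin Y.1) (Fin X.1) k),
      X.2 = R * S ∧ Y.2 = S * R)
    {X Y : Σ n : ℕ, Matrix (Fin n) (Fin n) k} (h : Relation.ReflTransGen r X Y) :
    ∃ l, 1 ≤ l ∧ ∃ (R : Matrix (Fin X.1) (Fin Y.1) k) (S : Matrix (Fin Y.1) (Fin X.1) k),
      X.2 ^ l = R * S ∧ Y.2 ^ l = S * R ∧ X.2 * R = R * Y.2 ∧ S * X.2 = Y.2 * S := by
  have pc : ∀ {n m : ℕ} {A : Matrix (Fin n) (Fin n) k} {B : Matrix (Fin m) (Fin m) k}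
      {R : Matrix (Fin n) (Fin m) k}, A * R = R * B → ∀ l : ℕ, A ^ l * R = R * B ^ l := by
    intro n m A B R h l
    induction l with
    | zero => rw [pow_zero, pow_zero, Matrix.one_mul, Matrix.mul_one]
    | succ l ih =>
      rw [pow_succ, Matrix.mul_assoc, h, ← Matrix.mul_assoc, ih, Matrix.mul_assoc, ← pow_succ]
  induction h with
  | refl => exact ⟨1, le_rfl, X.2, 1, by simp, by simp, by simp, by simp⟩
  | @tail Y Z _ h ih =>
    obtain ⟨R2, S2, c1, c2⟩ := hr _ _ h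
    obtain ⟨l1, hl1, R1, S1, a1, a2, a3, a4⟩ := ih
    have b3 : Y.2 * R2 = R2 * Z.2 := by rw [c1, c2, Matrix.mul_assoc]
    have b4 : S2 * Y.2 = Z.2 * S2 := by rw [c1, c2, Matrix.mul_assoc]
    refine ⟨l1 + 1, by omega, R1 * R2, S2 * S1, ?_, ?_, ?_, ?_⟩
    · calc X.2 ^ (l1 + 1) = X.2 ^ 1 * X.2 ^ l1 := by rw [add_comm, pow_add]
        _ = (X.2 ^ 1 * R1) * S1 := by rw [a1, Matrix.mul_assoc]
        _ = R1 * Y.2 ^ 1 * S1 := by rw [pc a3]
        _ = R1 * R2 * (S2 * S1) := by rw [pow_one, c1]; simp only [Matrix.mul_assoc]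
    · calc Z.2 ^ (l1 + 1) = Z.2 ^ l1 * Z.2 ^ 1 := by rw [pow_add]
        _ = (Z.2 ^ l1 * S2) * R2 := by rw [pow_one, c2, Matrix.mul_assoc]
        _ = S2 * Y.2 ^ l1 * R2 := by rw [pc b4.symm]
        _ = S2 * S1 * (R1 * R2) := by rw [a2]; simp only [Matrix.mul_assoc]
    · rw [← Matrix.mul_assoc, a3, Matrix.mul_assoc, b3, ← Matrix.mul_assoc]
    · rw [Matrix.mul_assoc, a4, ← Matrix.mul_assoc, b4, Matrix.mul_assoc]

end

end Pool.Agent.Run7.h686.QP
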