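import Pool.Agent.Run7.h686.QP.Basic

/-!
# `2 × 2` matrices over the nonnegative rationals
-/

set_option autoImplicit false

namespace Pool.Agent.Run7.h686.QP

open Matrix

/-- The sum of two cones in the plane is generated by two vectors. -/
lemma cone_sum (S T : Matrix (Fin 2) (Fin 2) ℚ) (hS : NN S) (hT : NN T) (hdet : S.det ≠ 0) :
    ∃ G X Y Z W : Matrix (Fin 2) (Fin 2) ℚ, NN X ∧ NN Y ∧ NN Z ∧ NN W ∧ G.det ≠ 0 ∧
      S = X * G ∧ T = Y * G ∧ G = Z * S + W * T := by
  obtain ⟨P, hP⟩ : ∃ P : Matrix (Fin (3 + 1)) (Fin 2) ℚ,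
      P = !![S 0 0, S 0 1; S 1 0, S 1 1; T 0 0, T 0 1; T 1 0, T 1 1] := ⟨_, rfl⟩
  have hPnn : ∀ i j, 0 ≤ P i j := by
    intro i j
    rw [hP]
    fin_cases i <;> fin_cases j <;> simp <;> first | exact hS _ _ | exact hT _ _
  obtain ⟨i0, i1, α, β, hα, hβ, hrows⟩ := extreme P (fun i => P i 0 + P i 1) (fun i => P i 1)
    ![1, 0] ![-1, 1] (by
      intro i j; fin_cases j <;> simp) (fun i => add_nonneg (hPnn i 0) (hPnn i 1)) (by
      intro i hi
      have h1 := hPnn i 0
      have h2 := hPnn i 1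
      have hi' : P i 0 + P i 1 = 0 := hi
      show P i 1 = 0
      linarith)
  have hsel : ∀ i : Fin (3 + 1), ∃ z : Fin 4 → ℚ, (∀ k, 0 ≤ z k) ∧ ∀ j,
      P i j = z 0 * S 0 j + z 1 * S 1 j + (z 2 * T 0 j + z 3 * T 1 j) := by
    intro i
    fin_cases i
    · refine ⟨![1, 0, 0, 0], by intro k; fin_cases k <;> simp, ?_⟩
      intro j; rw [hP]; fin_cases j <;> simp
    · refine ⟨![0, 1, 0, 0], by intro k; fin_cases k <;> simp, ?_⟩
      intro j; rw [hP]; fin_cases j <;> simp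
    · refine ⟨![0, 0, 1, 0], by intro k; fin_cases k <;> simp, ?_⟩
      intro j; rw [hP]; fin_cases j <;> simp
    · refine ⟨![0, 0, 0, 1], by intro k; fin_cases k <;> simp, ?_⟩
      intro j; rw [hP]; fin_cases j <;> simp
  obtain ⟨z, hz, hz'⟩ := hsel i0
  obtain ⟨w, hw, hw'⟩ := hsel i1
  have hSX : S = !![α 0, β 0; α 1, β 1] * !![P i0 0, P i0 1; P i1 0, P i1 1] := by
    have e0 := hrows 0
    have e1 := hrows 1
    rw [hP] at e0 e1
    ext i j
    fin_cases i <;> fin_cases j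
    · simpa [Matrix.mul_apply, Fin.sum_univ_two, hP] using e0 0
    · simpa [Matrix.mul_apply, Fin.sum_univ_two, hP] using e0 1
    · simpa [Matrix.mul_apply, Fin.sum_univ_two, hP] using e1 0
    · simpa [Matrix.mul_apply, Fin.sum_univ_two, hP] using e1 1
  have hTY : T = !![α 2, β 2; α 3, β 3] * !![P i0 0, P i0 1; P i1 0, P i1 1] := by
    have e0 := hrows 2
    have e1 := hrows 3
    rw [hP] at e0 e1
    ext i j
    fin_cases i <;> fin_cases j
    · simpa [Matrix.mul_apply, Fin.sum_univ_two, hP] using e0 0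
    · simpa [Matrix.mul_apply, Fin.sum_univ_two, hP] using e0 1
    · simpa [Matrix.mul_apply, Fin.sum_univ_two, hP] using e1 0
    · simpa [Matrix.mul_apply, Fin.sum_univ_two, hP] using e1 1
  refine ⟨!![P i0 0, P i0 1; P i1 0, P i1 1], !![α 0, β 0; α 1, β 1], !![α 2, β 2; α 3, β 3],
    !![z 0, z 1; w 0, w 1], !![z 2, z 3; w 2, w 3], ?_, ?_, ?_, ?_, ?_, hSX, hTY, ?_⟩
  · intro i j; fin_cases i <;> fin_cases j <;> simp [hα, hβ]
  · intro i j; fin_cases i <;> fin_cases j <;> simp [hα, hβ]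
  · intro i j; fin_cases i <;> fin_cases j <;> simp [hz, hw]
  · intro i j; fin_cases i <;> fin_cases j <;> simp [hz, hw]
  · intro h
    apply hdet
    rw [hSX, Matrix.det_mul, h, mul_zero]
  · ext i j
    fin_cases i <;> fin_cases j
    · simpa [Matrix.mul_apply, Fin.sum_univ_two, Matrix.vecMul, dotProduct] using hz' 0
    · simpa [Matrix.mul_apply, Fin.sum_univ_two, Matrix.vecMul, dotProduct] using hz' 1
    · simpa [Matrix.mul_apply, Fin.sum_univ_two, Matrix.vecMul, dotProduct] using hw' 0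
    · simpa [Matrix.mul_apply, Fin.sum_univ_two, Matrix.vecMul, dotProduct] using hw' 1

/-- `G` generates the sum of the cones of `S` and of `M ^ l`. -/
def Spec (M S : Matrix (Fin 2) (Fin 2) ℚ) (l : ℕ) (G : Matrix (Fin 2) (Fin 2) ℚ) : Prop :=
  G.det ≠ 0 ∧ ∃ X Y Z W : Matrix (Fin 2) (Fin 2) ℚ, NN X ∧ NN Y ∧ NN Z ∧ NN W ∧
    S = X * G ∧ M ^ l = Y * G ∧ G = Z * S + W * M ^ l

lemma step {M M' S G G' : Matrix (Fin 2) (Fin 2) ℚ} {l : ℕ} (hM : NN M) (hM' : NN M')
    (hSM : S * M = M' * S) (h : Spec M S l G) (h' : Spec M S (l + 1) G') :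
    Q (G * M * G⁻¹) (G' * M * G'⁻¹) := by
  obtain ⟨hd, X, Y, Z, W, n1, n2, n3, n4, e1, e2, e3⟩ := h
  obtain ⟨hd', X', Y', Z', W', n1', n2', n3', n4', e1', e2', e3'⟩ := h'
  have hG : G * G⁻¹ = 1 := Matrix.mul_nonsing_inv G (isUnit_iff_ne_zero.mpr hd)
  have hG' : G' * G'⁻¹ = 1 := Matrix.mul_nonsing_inv G' (isUnit_iff_ne_zero.mpr hd')
  have f1 : G * M = (Z * M' * X' + W * Y') * G' := by
    calc G * M = (Z * S + W * M ^ l) * M := by rw [← e3]
      _ = Z * (S * M) + W * M ^ (l + 1) := by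
          rw [Matrix.add_mul, pow_succ]; simp only [Matrix.mul_assoc]
      _ = Z * (M' * (X' * G')) + W * (Y' * G') := by rw [hSM, ← e1', ← e2']
      _ = _ := by rw [Matrix.add_mul]; simp only [Matrix.mul_assoc]
  have f2 : G' = (Z' * X + W' * M * Y) * G := by
    calc G' = Z' * S + W' * M ^ (l + 1) := e3'
      _ = Z' * (X * G) + W' * (M * (Y * G)) := by rw [← e1, ← e2, pow_succ']
      _ = _ := by rw [Matrix.add_mul]; simp only [Matrix.mul_assoc]
  refine Q.of_elem (Z * M' * X' + W * Y') (Z' * X + W' * M * Y)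
    (NN_add (NN_mul (NN_mul n3 hM') n1') (NN_mul n4 n2'))
    (NN_add (NN_mul n3' n1) (NN_mul (NN_mul n4' hM) n2)) ?_ ?_
  · calc G * M * G⁻¹ = (Z * M' * X' + W * Y') * G' * G⁻¹ := by rw [f1]
      _ = (Z * M' * X' + W * Y') * ((Z' * X + W' * M * Y) * G) * G⁻¹ := by rw [← f2]
      _ = (Z * M' * X' + W * Y') * (Z' * X + W' * M * Y) * (G * G⁻¹) := by
          simp only [Matrix.mul_assoc]
      _ = _ := by rw [hG, Matrix.mul_one]
  · calc G' * M * G'⁻¹ = (Z' * X + W' * M * Y) * G * M * G'⁻¹ := by rw [← f2]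
      _ = (Z' * X + W' * M * Y) * (G * M) * G'⁻¹ := by simp only [Matrix.mul_assoc]
      _ = (Z' * X + W' * M * Y) * (Z * M' * X' + W * Y') * (G' * G'⁻¹) := by
          rw [f1]; simp only [Matrix.mul_assoc]
      _ = _ := by rw [hG', Matrix.mul_one]

lemma NN_zero {n m : ℕ} : NN (0 : Matrix (Fin n) (Fin m) ℚ) := fun _ _ => le_rfl

/-- Nonsingular shift equivalent `2 × 2` matrices. -/
theorem two_nonsing {M M' R S : Matrix (Fin 2) (Fin 2) ℚ} (hM : NN M) (hM' : NN M') (hR : NN R)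
    (hS : NN S) (hdet : M.det ≠ 0) (l : ℕ) (h1 : M ^ l = R * S) (h2 : S * M = M' * S) :
    Q M M' := by
  have hSdet : S.det ≠ 0 := by
    intro h
    have h3 := congrArg Matrix.det h1
    rw [Matrix.det_mul, h, mul_zero, Matrix.det_pow] at h3
    exact pow_ne_zero l hdet h3
  have key : ∀ k : ℕ, ∃ G, Spec M S k G ∧ Q M (G * M * G⁻¹) := by
    intro k
    induction k with
    | zero =>
      refine ⟨1, ⟨by simp, S, 1, 0, 1, hS, NN_one, NN_zero, NN_one, by simp, by simp, by simp⟩, ?_⟩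
      rw [Matrix.one_mul, inv_one, Matrix.mul_one]
      exact Q.refl M
    | succ k ih =>
      obtain ⟨G, hG, hQ⟩ := ih
      obtain ⟨G', X, Y, Z, W, n1, n2, n3, n4, hd, e1, e2, e3⟩ :=
        cone_sum S (M ^ (k + 1)) hS (NN_pow hM (k + 1)) hSdet
      have hG' : Spec M S (k + 1) G' := ⟨hd, X, Y, Z, W, n1, n2, n3, n4, e1, e2, e3⟩
      exact ⟨G', hG', hQ.trans (step hM hM' h2 hG hG')⟩
  obtain ⟨G, hG, hQ⟩ := key l
  have hS' : Spec M S (l + 1) S := by
    refine ⟨hSdet, 1, M * R, 1, 0, NN_one, NN_mul hM hR, NN_one, NN_zero, by simp, ?_, by simp⟩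
    rw [pow_succ', h1, Matrix.mul_assoc]
  have hfin := hQ.trans (step hM hM' h2 hG hS')
  have hSS : S * S⁻¹ = 1 := Matrix.mul_nonsing_inv S (isUnit_iff_ne_zero.mpr hSdet)
  have e : S * M * S⁻¹ = M' := by rw [h2, Matrix.mul_assoc, hSS, Matrix.mul_one]
  rwa [e] at hfin

/-- Singular `2 × 2` matrices. -/
lemma two_sing {M : Matrix (Fin 2) (Fin 2) ℚ} (hM : NN M) (hdet : M.det = 0) :
    ∃ (x : ℚ) (U : Matrix (Fin 2) (Fin 1) ℚ) (V : Matrix (Fin 1) (Fin 2) ℚ), 0 ≤ x ∧ NN U ∧ NN V ∧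
      M = U * V ∧ !![x] = V * U := by
  rw [Matrix.det_fin_two] at hdet
  have h00 := hM 0 0
  have h01 := hM 0 1
  have h10 := hM 1 0
  have h11 := hM 1 1
  have hMeta := Matrix.eta_fin_two M
  rw [hMeta]
  generalize M 0 0 = a at *
  generalize M 0 1 = b at *
  generalize M 1 0 = c at *
  generalize M 1 1 = d at *
  rcases h00.lt_or_eq with ha | ha
  · refine ⟨a + b * (c / a), !![1; c / a], !![a, b], ?_, ?_, ?_, ?_, ?_⟩
    · exact add_nonneg h00 (mul_nonneg h01 (div_nonneg h10 h00))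
    · intro i j; fin_cases i <;> fin_cases j <;> simp
      exact div_nonneg h10 h00
    · intro i j; fin_cases i <;> fin_cases j <;> simp <;> assumption
    · ext i j; fin_cases i <;> fin_cases j <;> simp [Matrix.mul_apply]
      · field_simp
      · field_simp; linarith
    · ext i j; fin_cases i; fin_cases j; simp [Matrix.mul_apply, Fin.sum_univ_two]
  · rcases h01.lt_or_eq with hb | hb
    · have hc : c = 0 := by
        rw [← ha] at hdet
        have : b * c = 0 := by linarith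
        rcases mul_eq_zero.mp this with h | h
        · linarith
        · exact h
      refine ⟨a + b * (d / b), !![1; d / b], !![a, b], ?_, ?_, ?_, ?_, ?_⟩
      · exact add_nonneg h00 (mul_nonneg h01 (div_nonneg h11 h01))
      · intro i j; fin_cases i <;> fin_cases j <;> simp
        exact div_nonneg h11 h01
      · intro i j; fin_cases i <;> fin_cases j <;> simp <;> assumption
      · ext i j; fin_cases i <;> fin_cases j <;> simp [Matrix.mul_apply]
        · rw [← ha, hc]; simp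
        · field_simp
      · ext i j; fin_cases i; fin_cases j; simp [Matrix.mul_apply, Fin.sum_univ_two]
    · refine ⟨d, !![0; 1], !![c, d], h11, ?_, ?_, ?_, ?_⟩
      · intro i j; fin_cases i <;> fin_cases j <;> simp
      · intro i j; fin_cases i <;> fin_cases j <;> simp <;> assumption
      · ext i j; fin_cases i <;> fin_cases j <;> simp [Matrix.mul_apply, ← ha, ← hb]
      · ext i j; fin_cases i; fin_cases j; simp [Matrix.mul_apply, Fin.sum_univ_two]

/-- Shift equivalent nonnegative `2 × 2` matrices are strong shift equivalent. -/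
theorem two_all {M M' : Matrix (Fin 2) (Fin 2) ℚ} (hM : NN M) (hM' : NN M') (h : SE M M') :
    Q M M' := by
  have h' := h
  obtain ⟨l, hl, R, S, hR, hS, h1, h2, h3, h4⟩ := h'
  have hdets : M.det ^ l = M'.det ^ l := by
    rw [← Matrix.det_pow, ← Matrix.det_pow, h1, h2, Matrix.det_mul, Matrix.det_mul, mul_comm]
  by_cases hd : M.det = 0
  · have hd' : M'.det = 0 := by
      rw [hd, zero_pow (by omega)] at hdets
      exact pow_eq_zero_iff (by omega) |>.mp hdets.symm
    obtain ⟨x, U, V, hx, hU, hV, k1, k2⟩ := two_sing hM hd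
    obtain ⟨y, U', V', hy, hU', hV', k1', k2'⟩ := two_sing hM' hd'
    have s1 := SE.of_elem U V hU hV k1 k2
    have s2 := SE.of_elem U' V' hU' hV' k1' k2'
    obtain ⟨l', hl', R', S', -, -, p1, p2, -, -⟩ := (s1.symm.trans h).trans s2
    have hxy : x ^ l' = y ^ l' := by
      have e1 : (!![x] : Matrix (Fin 1) (Fin 1) ℚ).det = x := by simp
      have e2 : (!![y] : Matrix (Fin 1) (Fin 1) ℚ).det = y := by simp
      have e3 : (!![x] : Matrix (Fin 1) (Fin 1) ℚ).det ^ l' =
          (!![y] : Matrix (Fin 1) (Fin 1) ℚ).det ^ l' := by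
        rw [← Matrix.det_pow, ← Matrix.det_pow, p1, p2, Matrix.det_mul, Matrix.det_mul, mul_comm]
      rwa [e1, e2] at e3
    have hxy' : x = y := (pow_left_inj₀ hx hy (by omega)).mp hxy
    have q1 := Q.of_elem U V hU hV k1 k2
    have q2 := Q.of_elem U' V' hU' hV' k1' k2'
    rw [← hxy'] at q2
    exact q1.trans q2.symm
  · exact two_nonsing hM hM' hR hS hd l h1 h4

end Pool.Agent.Run7.h686.QP
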